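import Pool.Agent.MP_ad2fa1_an.H64.Main

set_option autoImplicit false

namespace Pool.Agent.Results.MP_ad2fa1_an.ChernSimons

open Pool.Agent.MP_ad2fa1_an.H33

/-- For every real `N > 1` and `κ > 0` the Chern-Simons equation (`p = 4/κ²`, `q(s) = s(1-s)`) has a
negative solution that is not radially symmetric about the origin; `q` agrees on `(0,1]` with a
function for which (H1)-(H8) hold, and the same `u` solves the equation for that function. -/
theorem result : ∀ N κ : ℝ, 1 < N → 0 < κ →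
    ∃ u : EuclideanSpace ℝ (Fin 2) → ℝ,
      IsSol N (fun _ => 4 / κ ^ 2) (fun s => s * (1 - s)) u ∧ (∀ x, x ≠ 0 → u x < 0) ∧
      (∃ x y, x ≠ 0 ∧ ‖x‖ = ‖y‖ ∧ u x ≠ u y) ∧
      ∃ q : ℝ → ℝ, (∀ s, 0 < s → s ≤ 1 → q s = s * (1 - s)) ∧
        Hyp (fun t => Real.exp (2 * t) * (4 / κ ^ 2)) (fun s => q (Real.exp s)) ∧
        IsSol N (fun _ => 4 / κ ^ 2) q u :=
  fun N κ hN hκ => Pool.Agent.MP_ad2fa1_an.H64.main N (4 / κ ^ 2) hN (by positivity)

end Pool.Agent.Results.MP_ad2fa1_an.ChernSimons
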