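import Pool.Agent.MP_ad2fa1_an.H33.Sol

set_option autoImplicit false

namespace Pool.Agent.Results.MP_ad2fa1_an.Nonradial

open Pool.Agent.MP_ad2fa1_an.H33

/-- For every real `N ≥ 0` (and every integer `n ≥ N`) there are `p(r) = c r^(2(n-N))` and `q`
satisfying (H1)-(H8), and a negative solution that is not radially symmetric about the origin. -/
theorem result : ∀ (N : ℝ) (n : ℕ), 0 ≤ N → N ≤ n →
    ∃ (c : ℝ) (p q : ℝ → ℝ), 0 < c ∧ (∀ r, p r = c * r ^ (2 * ((n : ℝ) - N))) ∧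
      Hyp (fun t => Real.exp (2 * t) * p (Real.exp t)) (fun s => q (Real.exp s)) ∧
      ∃ u : EuclideanSpace ℝ (Fin 2) → ℝ, IsSol N p q u ∧ (∀ x, x ≠ 0 → u x < 0) ∧
        ∃ x y, x ≠ 0 ∧ ‖x‖ = ‖y‖ ∧ u x ≠ u y := by
  intro N n hN hn
  have hc : (0 : ℝ) < 225 * ((n : ℝ) + 1) ^ 2 := by positivity
  refine ⟨225 * ((n : ℝ) + 1) ^ 2, fun r => 225 * ((n : ℝ) + 1) ^ 2 * r ^ (2 * ((n : ℝ) - N)),
    fun s => s * psi (Real.log s), hc, fun r => rfl, ?_, uu N n, isSol_uu hN hn,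
    fun x hx => lt_of_le_of_lt (uu_le hN hn hx) (by norm_num), not_radial N n⟩
  have h := hyp_exp (a := 2 + 2 * ((n : ℝ) - N)) hc (by linarith)
  convert h using 2 with t s
  · beta_reduce
    rw [← Real.exp_mul, mul_left_comm, ← Real.exp_add]
    congr 2
    ring
  · simp [gg]

end Pool.Agent.Results.MP_ad2fa1_an.Nonradial
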